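import Pool.Agent.Helper6.NS.Van
import Pool.Agent.Helper7.KU.M3

/-!
# Row M4: the sum over the tower
-/

namespace Pool.Agent.Helper25.KU

open CategoryTheory CategoryTheory.Limits CategoryTheory.Pretriangulated Module
open CategoryTheory.Triangulated
open Pool.Agent.Helper6.KE Pool.Agent.Helper6.NS

universe v u w

variable {C : Type u} [Category.{v} C] [Preadditive C] [HasZeroObject C] [HasShift C ℤ]
  [∀ n : ℤ, (shiftFunctor C n).Additive] [Pretriangulated C]
  {K : Type w} [Field K] [Linear K C] [∀ n : ℤ, (shiftFunctor C n).Linear K]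

/-- M4: the sum over the tower. -/
theorem gsum [IsTriangulated C] (D : EnriquesType K C) (t : TStructure C)
    (Wge : ∀ X n, t.IsGE X n → t.IsGE (D.W.obj X) n) (A B : C) (a b : ℤ) (hab : a ≤ b)
    (hA : t.IsGE A a) (hA' : t.IsLE A (b - 1)) :
    ∑ n ∈ Finset.Ico a b, (hd K (gr t n A) ((t.truncGE (n + 1)).obj B) 1 +
      hd K (gr t n A) (gr t n B) 1) ≤
    hd K A B 1 + ∑ n ∈ Finset.Ico a b, hd K (gr t n A) (gr t n B) 2 := by
  have hgle : ∀ (n : ℤ) (X : C), t.IsLE (gr t n X) n := by
    intro n X
    have h1 : t.IsLE (gr t n X) (n + 1 - 1) := by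
      unfold gr
      infer_instance
    exact t.isLE_of_le _ (n + 1 - 1) n (by omega)
  have hgge : ∀ (n : ℤ) (X : C), t.IsGE (gr t n X) n := by
    intro n X
    unfold gr
    infer_instance
  have key : ∀ m : ℕ, ∑ n ∈ Finset.Ico a (a + m), (hd K (gr t n A) ((t.truncGE (n + 1)).obj B) 1 +
      hd K (gr t n A) (gr t n B) 1) ≤
      hd K ((t.truncLT (a + m)).obj A) B 1 +
        ∑ n ∈ Finset.Ico a (a + m), hd K (gr t n A) (gr t n B) 2 := by
    intro m
    induction m with
    | zero =>
      have e : Finset.Ico a (a + ((0 : ℕ) : ℤ)) = ∅ := by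
        rw [Nat.cast_zero, add_zero, Finset.Ico_self]
      rw [e, Finset.sum_empty, Finset.sum_empty]
      exact Nat.zero_le _
    | succ m ih =>
      obtain ⟨n, hn⟩ : ∃ n : ℤ, n = a + m := ⟨_, rfl⟩
      have e1 : a + ((m + 1 : ℕ) : ℤ) = n + 1 := by
        rw [hn]
        push_cast
        ring
      have e2 : Finset.Ico a (n + 1) = insert n (Finset.Ico a n) := by
        ext x
        simp only [Finset.mem_Ico, Finset.mem_insert]
        omega
      have e3 : n ∉ Finset.Ico a n := by
        simp only [Finset.mem_Ico]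
        omega
      rw [← hn] at ih
      rw [e1, e2, Finset.sum_insert e3, Finset.sum_insert e3]
      have hXle : t.IsLE ((t.truncLT n).obj A) (n - 1) := inferInstance
      have hB1le : t.IsLE ((t.truncLT n).obj B) (n - 1) := inferInstance
      have hB3ge : t.IsGE ((t.truncGE (n + 1)).obj B) (n + 1) := inferInstance
      have hT := t.triangleLTLTGELT_distinguished n (n + 1) (by omega) A
      have h3 := t.triangleLTLTGELT_distinguished n (n + 1) (by omega) B
      have h2 := t.triangleLTGE_distinguished (n + 1) B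
      have hs := Helper7.KU.step (K := K) D.homFinite _ _ _ hT _ _ _ _ h2 _ _ h3 ?_ ?_ ?_ ?_
      · have hs' : hd K ((t.truncLT n).obj A) B 1 +
            hd K (gr t n A) ((t.truncGE (n + 1)).obj B) 1 + hd K (gr t n A) (gr t n B) 1 ≤
            hd K ((t.truncLT (n + 1)).obj A) B 1 + hd K (gr t n A) (gr t n B) 2 := hs
        omega
      · intro f
        change (t.truncLT n).obj A ⟶ B at f
        refine ⟨t.liftTruncLT f (n - 1) n (by omega), ?_⟩
        change t.liftTruncLT f (n - 1) n _ ≫ (t.natTransTruncLTOfLE n (n + 1) _).app B ≫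
          (t.truncLTι (n + 1)).app B = f
        rw [t.natTransTruncLTOfLE_ι_app, t.liftTruncLT_ι]
      · intro f
        have hz : HV ((t.truncLT n).obj A) ((t.truncGE (n + 1)).obj B) 1 :=
          van_low t (n - 1) (n + 1) 1 hXle hB3ge (by omega)
        obtain ⟨g, hg⟩ := coyo₂ _ h2 1 f (hz _)
        exact ⟨g, hg.symm⟩
      · exact van_low t n (n + 1) 0 (hgle n A) hB3ge (by omega)
      · exact van D t Wge n (n - 1) 2 (hgge n A) hB1le (by omega)
  have h1 := key (b - a).toNat
  have e : a + ((b - a).toNat : ℤ) = b := by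
    rw [Int.toNat_of_nonneg (by omega)]
    ring
  rw [e] at h1
  have hiso := (t.isLE_iff_isIso_truncLTι_app (b - 1) b (by omega) A).1 hA'
  have h2 : hd K ((t.truncLT b).obj A) B 1 = hd K A B 1 :=
    hd_iso (asIso ((t.truncLTι b).app A)) (Iso.refl B) 1
  rw [h2] at h1
  exact h1

end Pool.Agent.Helper25.KU
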