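import Pool.Agent.Helper6.NS.Van

/-!
# Row M6: the numbers of morphisms to the pieces of an object of the Kuznetsov component
-/

namespace Pool.Agent.Helper25.KU

open CategoryTheory CategoryTheory.Limits CategoryTheory.Pretriangulated Module
open CategoryTheory.Triangulated
open Pool.Agent.Helper6.KE Pool.Agent.Helper6.NS

universe v u w

variable {C : Type u} [Category.{v} C] [Preadditive C] [HasZeroObject C] [HasShift C ℤ]
  [∀ n : ℤ, (shiftFunctor C n).Additive] [Pretriangulated C]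
  {K : Type w} [Field K] [Linear K C]

/-- isomorphism in degree `m` of the first two objects of a triangle -/
lemma hd_eq₁₂ (T : Triangle C) (hT : T ∈ distTriang C) (X : C) (m m' : ℤ) (hm : m' + 1 = m)
    (h1 : HV X T.obj₃ m) (h2 : HV X T.obj₃ m') : hd K X T.obj₁ m = hd K X T.obj₂ m := by
  unfold hd
  refine (LinearEquiv.ofBijective (Linear.rightComp K X (T.mor₁⟦m⟧')) ⟨?_, ?_⟩).finrank_eq
  · rw [← LinearMap.ker_eq_bot, LinearMap.ker_eq_bot']
    intro f hf
    exact coyo₁ T hT m m' hm h2 f hf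
  · intro f
    obtain ⟨g, hg⟩ := coyo₂ T hT m f (h1 _)
    exact ⟨g, hg.symm⟩

variable [∀ n : ℤ, (shiftFunctor C n).Linear K]

/-- isomorphism in degree `m` of the last two objects of a triangle -/
lemma hd_eq₂₃ (T : Triangle C) (hT : T ∈ distTriang C) (X : C) (m m' : ℤ) (hm : m + 1 = m')
    (h1 : HV X T.obj₁ m) (h2 : HV X T.obj₁ m') : hd K X T.obj₂ m = hd K X T.obj₃ m :=
  hd_eq₁₂ T.rotate (rot_of_distTriang _ hT) X m (m - 1) (by omega)
    (h2.shift_right 1 m (by omega)) (h1.shift_right 1 (m - 1) (by omega))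

/-- the connecting isomorphism -/
lemma hd_eq₃₁ (T : Triangle C) (hT : T ∈ distTriang C) (X : C) (m m' : ℤ) (hm : m + 1 = m')
    (h1 : HV X T.obj₂ m) (h2 : HV X T.obj₂ m') : hd K X T.obj₃ m = hd K X T.obj₁ m' := by
  have h := hd_eq₂₃ (K := K) T.rotate (rot_of_distTriang _ hT) X m m' hm h1 h2
  rw [← hd_shift_right (K := K) X T.obj₁ 1 m m' (by omega)]
  exact h

/-- M6b: bottom piece of a truncation. -/
theorem hd_ge_gr [IsTriangulated C] (t : TStructure C) (T X : C) (p n : ℤ) (hT : t.IsLE T p) :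
    hd K T ((t.truncGE n).obj X) (n - p) = hd K T (gr t n X) (n - p) := by
  have h1 : t.IsGE ((t.truncGE (n + 1)).obj ((t.truncGE n).obj X)) (n + 1) := inferInstance
  have h2 := hd_eq₁₂ (K := K) _ (t.triangleLTGE_distinguished (n + 1) ((t.truncGE n).obj X)) T
    (n - p) (n - p - 1) (by omega) (van_low t p (n + 1) (n - p) hT h1 (by omega))
    (van_low t p (n + 1) (n - p - 1) hT h1 (by omega))
  have h3 : hd K T (gr t n X) (n - p) =
      hd K T ((t.truncLT (n + 1)).obj ((t.truncGE n).obj X)) (n - p) :=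
    hd_iso (Iso.refl T) ((t.truncGELTIsoLTGE n (n + 1)).app X) (n - p)
  rw [h3]
  exact h2.symm

/-- M6: the numbers `h k n`. -/
theorem ku_gr [IsTriangulated C] (D : EnriquesType K C) (L : Fin 10 → C)
    (t : TStructure C) (p : Fin 10 → ℤ) (h : Good D L t p) (X : C) (hX : Ku L X) (k : Fin 10) :
    (∀ n, hd K (L k) (gr t n X) (n + 2 - p k) = hd K (L k) (gr t (n + 1) X) (n + 1 - p k)) ∧
    (∀ n, HV (L k) (gr t n X) (n + 1 - p k)) := by
  have hle := (h.smp k).le
  have hge := (h.smp k).ge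
  have hX' : ∀ m, HV (L k) X m := fun m => hX k m
  have hlt : ∀ n : ℤ, t.IsLE ((t.truncLT n).obj X) (n - 1) := fun n => inferInstance
  have hgt : ∀ n : ℤ, t.IsGE ((t.truncGE n).obj X) n := fun n => inferInstance
  refine ⟨fun n => ?_, fun n => ?_⟩
  · have e1 := hd_ge_gr (K := K) t (L k) X (p k) (n + 1) hle
    have e2 := hd_eq₃₁ (K := K) _ (t.triangleLTGE_distinguished (n + 1) X) (L k) (n + 1 - p k)
      (n + 2 - p k) (by omega) (hX' _) (hX' _)
    have e3 := hd_eq₂₃ (K := K) _ (t.triangleLTLTGELT_distinguished n (n + 1) (by omega) X) (L k)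
      (n + 2 - p k) (n + 3 - p k) (by omega)
      (van D t h.Wge (p k) (n - 1) _ hge (hlt n) (by omega))
      (van D t h.Wge (p k) (n - 1) _ hge (hlt n) (by omega))
    rw [← e1]
    exact e3.symm.trans e2.symm
  · intro f
    have hz : f ≫ ((t.triangleLTLTGELT n (n + 1) (by omega)).obj X).mor₃⟦(n + 1 - p k : ℤ)⟧' = 0 := by
      have h1 : HV (L k) ((t.truncLT n).obj X) (n + 2 - p k) :=
        van D t h.Wge (p k) (n - 1) _ hge (hlt n) (by omega)
      exact (h1.shift_right 1 (n + 1 - p k) (by omega)) _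
    obtain ⟨g, hg⟩ := coyo₂ _ (rot_of_distTriang _
      (t.triangleLTLTGELT_distinguished n (n + 1) (by omega) X)) (n + 1 - p k) f hz
    have h0 : g = 0 := by
      refine coyo₁ _ (t.triangleLTGE_distinguished (n + 1) X) (n + 1 - p k) (n - p k) (by omega)
        ?_ g (hX' _ _)
      exact van_low t (p k) (n + 1) (n - p k) hle (hgt (n + 1)) (by omega)
    rw [hg, h0]
    exact zero_comp

end Pool.Agent.Helper25.KU
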