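import Pool.Agent.Helper6.NS.Defs

/-!
# Row M2d: tilt of a t-structure at two simple objects, downwards
-/

namespace Pool.Agent.Helper25.KU

open CategoryTheory CategoryTheory.Limits CategoryTheory.Pretriangulated Module
open CategoryTheory.Triangulated
open Pool.Agent.Helper6.KE Pool.Agent.Helper6.NS

universe v u w

variable {C : Type u} [Category.{v} C] [Preadditive C] [HasZeroObject C] [HasShift C ℤ]
  [∀ n : ℤ, (shiftFunctor C n).Additive] [Pretriangulated C]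

lemma hv_zero_iff {X Y : C} {n : ℤ} (hn : n = 0) : HV X Y n ↔ ∀ f : X ⟶ Y, f = 0 := by
  subst hn
  constructor
  · intro h f
    have h1 := h (f ≫ (shiftFunctorZero C ℤ).inv.app Y)
    rw [← cancel_mono ((shiftFunctorZero C ℤ).inv.app Y), zero_comp]
    exact h1
  · intro h f
    have h1 := h (f ≫ (shiftFunctorZero C ℤ).hom.app Y)
    rw [← cancel_mono ((shiftFunctorZero C ℤ).hom.app Y), zero_comp]
    exact h1

omit [HasZeroObject C] [∀ n : ℤ, (shiftFunctor C n).Additive] [Pretriangulated C] in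
/-- shifting back and forth, naturally -/
lemma nat_shift {R X : C} (g : R ⟶ X) :
    ∃ (eR : R⟦(1 : ℤ)⟧⟦(-1 : ℤ)⟧ ≅ R) (eX : X⟦(1 : ℤ)⟧⟦(-1 : ℤ)⟧ ≅ X),
      g⟦(1 : ℤ)⟧'⟦(-1 : ℤ)⟧' ≫ eX.hom = eR.hom ≫ g :=
  ⟨shiftShiftNeg R (1 : ℤ), shiftShiftNeg X (1 : ℤ),
    (shiftEquiv C (1 : ℤ)).unitIso.inv.naturality g⟩

/-- replacing the second object of a triangle -/
lemma tri_change (T : Triangle C) (hT : T ∈ distTriang C) {A : C} (e : T.obj₂ ≅ A) :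
    Triangle.mk (T.mor₁ ≫ e.hom) (e.inv ≫ T.mor₂) T.mor₃ ∈ distTriang C := by
  refine isomorphic_distinguished _ hT _ ?_
  refine Triangle.isoMk _ _ (Iso.refl _) e.symm (Iso.refl _) ?_ ?_ ?_
  · change (T.mor₁ ≫ e.hom) ≫ e.inv = 𝟙 _ ≫ T.mor₁
    rw [Category.assoc, e.hom_inv_id, Category.comp_id, Category.id_comp]
  · change (e.inv ≫ T.mor₂) ≫ 𝟙 _ = e.inv ≫ T.mor₂
    rw [Category.comp_id]
  · change T.mor₃ ≫ (𝟙 _)⟦(1 : ℤ)⟧' = 𝟙 _ ≫ T.mor₃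
    rw [CategoryTheory.Functor.map_id]
    exact (Category.comp_id _).trans (Category.id_comp _).symm

/-- the objects which are `≥ n` for the tilted t-structure -/
def geP (t : TStructure C) (P Q : C) (d n : ℤ) : ObjectProperty C :=
  fun X => t.IsGE X n ∧ HV P X (n - d) ∧ HV Q X (n - d)

/-- the objects which are `≤ n` for the tilted t-structure -/
def leP (t : TStructure C) (P Q : C) (d n : ℤ) : ObjectProperty C :=
  fun X => ∀ Y, geP t P Q d (n + 1) Y → ∀ f : X ⟶ Y, f = 0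

lemma geP_iso (t : TStructure C) (P Q : C) (d n : ℤ) {X Y : C} (e : X ≅ Y)
    (h : geP t P Q d n X) : geP t P Q d n Y := by
  have h1 := h.1
  exact ⟨t.isGE_of_iso e n, h.2.1.of_iso_right e.symm, h.2.2.of_iso_right e.symm⟩

lemma leP_iso (t : TStructure C) (P Q : C) (d n : ℤ) {X Y : C} (e : X ≅ Y)
    (h : leP t P Q d n X) : leP t P Q d n Y := by
  intro Z hZ f
  have h1 := h Z hZ (e.hom ≫ f)
  rw [← cancel_epi e.hom, h1, comp_zero]

lemma geP_shift (t : TStructure C) (P Q : C) (d : ℤ) (n a n' : ℤ) (h : a + n' = n) (X : C)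
    (hX : geP t P Q d n X) : geP t P Q d n' (X⟦a⟧) := by
  have h1 := hX.1
  exact ⟨t.isGE_shift X n a n' h, hX.2.1.shift_right a (n' - d) (by omega),
    hX.2.2.shift_right a (n' - d) (by omega)⟩

lemma leP_shift (t : TStructure C) (P Q : C) (d : ℤ) (n a n' : ℤ) (h : a + n' = n) (X : C)
    (hX : leP t P Q d n X) : leP t P Q d n' (X⟦a⟧) := by
  intro Y hY f
  have h1 := geP_shift t P Q d (n' + 1) (-a) (n + 1) (by omega) Y hY
  obtain ⟨e, -⟩ : ∃ e : X⟦a⟧⟦-a⟧ ≅ X, True := ⟨shiftShiftNeg X a, trivial⟩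
  have h2 := hX _ h1 (e.inv ≫ f⟦-a⟧')
  have h3 : f⟦-a⟧' = 0 := by
    rw [← cancel_epi e.inv, comp_zero]
    exact h2
  apply (shiftFunctor C (-a)).map_injective
  rw [h3, Functor.map_zero]

lemma geP_mono (t : TStructure C) {P Q : C} {d : ℤ} (hP : t.IsLE P d) (hQ : t.IsLE Q d) (n : ℤ)
    {X : C} (hX : geP t P Q d (n + 1) X) : geP t P Q d n X := by
  have h1 := hX.1
  have h2 : t.IsGE (X⟦n - d⟧) (d + 1) := t.isGE_shift X (n + 1) (n - d) (d + 1) (by omega)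
  refine ⟨t.isGE_of_ge X n (n + 1) (by omega), ?_, ?_⟩
  · intro f
    exact t.zero f d (d + 1) (by omega)
  · intro f
    exact t.zero f d (d + 1) (by omega)

/-- the morphism `g` is a reflection for the objects `Z` of degree `n` -/
def Rfl (t : TStructure C) (P Q : C) (d n : ℤ) {X Y : C} (g : X ⟶ Y) : Prop :=
  ∀ Z, geP t P Q d n Z → (∀ f : X ⟶ Z, ∃ k : Y ⟶ Z, f = g ≫ k) ∧
    ∀ h : Y ⟶ Z⟦(1 : ℤ)⟧, g ≫ h = 0 → h = 0

lemma rfl_comp (t : TStructure C) (P Q : C) (d n : ℤ) {X Y W : C} {g : X ⟶ Y} {g' : Y ⟶ W}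
    (h : Rfl t P Q d n g) (h' : Rfl t P Q d n g') : Rfl t P Q d n (g ≫ g') := by
  intro Z hZ
  refine ⟨fun f => ?_, fun k hk => ?_⟩
  · obtain ⟨k, hk⟩ := (h Z hZ).1 f
    obtain ⟨k', hk'⟩ := (h' Z hZ).1 k
    exact ⟨k', by rw [hk, hk', Category.assoc]⟩
  · rw [Category.assoc] at hk
    exact (h' Z hZ).2 k ((h Z hZ).2 _ hk)

lemma rfl_cone (t : TStructure C) (P Q : C) (d n : ℤ) {F X Y : C} {u : F ⟶ X} {g : X ⟶ Y}
    {δ : Y ⟶ F⟦(1 : ℤ)⟧} (hT : Triangle.mk u g δ ∈ distTriang C)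
    (hF : ∀ Z, geP t P Q d n Z → ∀ f : F ⟶ Z, f = 0) : Rfl t P Q d n g := by
  intro Z hZ
  refine ⟨fun f => ?_, fun h hh => ?_⟩
  · exact Triangle.yoneda_exact₂ _ hT f (hF Z hZ _)
  · obtain ⟨k, hk⟩ := Triangle.yoneda_exact₃ _ hT h hh
    have h0 : HV F Z 0 := (hv_zero_iff rfl).2 (hF Z hZ)
    have h1 : k = 0 := h0.shift_shift 1 1 (by norm_num) k
    rw [hk, h1]
    exact comp_zero

lemma fibre_of_rfl (t : TStructure C) (P Q : C) (d n : ℤ) {F X Y : C} {u : F ⟶ X} {g : X ⟶ Y}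
    {δ : Y ⟶ F⟦(1 : ℤ)⟧} (hT : Triangle.mk u g δ ∈ distTriang C) (hg : Rfl t P Q d n g)
    (Z : C) (hZ : geP t P Q d n Z) (f : F ⟶ Z) : f = 0 := by
  have h1 : g ≫ δ = 0 := comp_distTriang_mor_zero₂₃ _ hT
  have h2 : δ ≫ f⟦(1 : ℤ)⟧' = 0 := by
    apply (hg Z hZ).2
    rw [← Category.assoc, h1, zero_comp]
  obtain ⟨k, hk⟩ : ∃ k : X⟦(1 : ℤ)⟧ ⟶ Z⟦(1 : ℤ)⟧, f⟦(1 : ℤ)⟧' = (-u⟦(1 : ℤ)⟧') ≫ k :=
    Triangle.yoneda_exact₃ _ (rot_of_distTriang _ hT) (f⟦(1 : ℤ)⟧') h2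
  obtain ⟨k', rfl⟩ := (shiftFunctor C (1 : ℤ)).map_surjective k
  obtain ⟨k'', rfl⟩ := (hg Z hZ).1 k'
  apply (shiftFunctor C (1 : ℤ)).map_injective
  have h3 : u ≫ g = 0 := comp_distTriang_mor_zero₁₂ _ hT
  rw [hk, Functor.map_zero, Functor.map_comp, Preadditive.neg_comp, ← Category.assoc,
    ← Functor.map_comp, h3, Functor.map_zero, zero_comp, neg_zero]

variable {K : Type w} [Field K] [Linear K C]

/-- one step of the reflection -/
lemma step_R (fd : ∀ X Y : C, FiniteDimensional K (X ⟶ Y)) {R S X X₁ : C} {f₀ : R ⟶ X}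
    {q : X ⟶ X₁} {δ : X₁ ⟶ R⟦(1 : ℤ)⟧} (hT : Triangle.mk f₀ q δ ∈ distTriang C)
    (h1 : HV S R 1) :
    finrank K (S ⟶ X₁) ≤ finrank K (S ⟶ X) ∧
      ∀ g : S ⟶ X, g ≠ 0 → g ≫ q = 0 → finrank K (S ⟶ X₁) < finrank K (S ⟶ X) := by
  have := fd S X
  have := fd S X₁
  have hs : Function.Surjective (Linear.rightComp K S q) := by
    intro f
    obtain ⟨g, hg⟩ : ∃ g : S ⟶ X, f = g ≫ q :=
      Triangle.coyoneda_exact₃ _ hT f (h1 _)
    exact ⟨g, hg.symm⟩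
  have h2 := LinearMap.finrank_range_add_finrank_ker (Linear.rightComp K S q)
  rw [LinearMap.range_eq_top.2 hs, finrank_top] at h2
  refine ⟨by omega, fun g hg hgq => ?_⟩
  have h3 : 0 < finrank K (LinearMap.ker (Linear.rightComp K S q)) := by
    rw [Module.finrank_pos_iff]
    refine ⟨⟨⟨g, ?_⟩, 0, ?_⟩⟩
    · rw [LinearMap.mem_ker]
      exact hgq
    · intro h
      exact hg (congrArg Subtype.val h)
  omega

lemma approx (fd : ∀ X Y : C, FiniteDimensional K (X ⟶ Y)) (t : TStructure C) {P Q : C} {d : ℤ}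
    (hP : CoSmp t P d) (hQ : CoSmp t Q d) (hPP1 : HV P P 1) (hPQ1 : HV P Q 1) (hQP1 : HV Q P 1)
    (hQQ1 : HV Q Q 1) (N : ℕ) :
    ∀ X : C, t.IsGE X d → finrank K (P ⟶ X) + finrank K (Q ⟶ X) ≤ N →
      ∃ (Y : C) (g : X ⟶ Y), geP t P Q d d Y ∧ Rfl t P Q d d g := by
  induction N with
  | zero =>
    intro X hX hN
    have := fd P X
    have := fd Q X
    refine ⟨X, 𝟙 X, ⟨hX, ?_, ?_⟩, ?_⟩
    · rw [hv_zero_iff (by omega)]
      have h1 : finrank K (P ⟶ X) = 0 := by omega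
      have h2 := Module.finrank_zero_iff.1 h1
      exact fun f => Subsingleton.elim _ _
    · rw [hv_zero_iff (by omega)]
      have h1 : finrank K (Q ⟶ X) = 0 := by omega
      have h2 := Module.finrank_zero_iff.1 h1
      exact fun f => Subsingleton.elim _ _
    · intro Z _
      exact ⟨fun f => ⟨f, (Category.id_comp f).symm⟩, fun h hh => by
        rwa [Category.id_comp] at hh⟩
  | succ N ih =>
    intro X hX hN
    by_cases h0 : (∀ f : P ⟶ X, f = 0) ∧ ∀ f : Q ⟶ X, f = 0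
    · refine ⟨X, 𝟙 X, ⟨hX, ?_, ?_⟩, ?_⟩
      · rw [hv_zero_iff (by omega)]
        exact h0.1
      · rw [hv_zero_iff (by omega)]
        exact h0.2
      · intro Z _
        exact ⟨fun f => ⟨f, (Category.id_comp f).symm⟩, fun h hh => by
          rwa [Category.id_comp] at hh⟩
    · have hR : ∃ (R : C) (f₀ : R ⟶ X), f₀ ≠ 0 ∧ CoSmp t R d ∧ HV P R 1 ∧ HV Q R 1 ∧
          (R = P ∨ R = Q) := by
        by_cases h1 : ∀ f : P ⟶ X, f = 0
        · have h2 : ¬ ∀ f : Q ⟶ X, f = 0 := fun h => h0 ⟨h1, h⟩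
          push Not at h2
          obtain ⟨f, hf⟩ := h2
          exact ⟨Q, f, hf, hQ, hPQ1, hQQ1, Or.inr rfl⟩
        · push Not at h1
          obtain ⟨f, hf⟩ := h1
          exact ⟨P, f, hf, hP, hPP1, hQP1, Or.inl rfl⟩
      obtain ⟨R, f₀, hf₀, hRc, hPR, hQR, hPQ⟩ := hR
      obtain ⟨X₁, q, δ, hT⟩ := distinguished_cocone_triangle f₀
      have hX₁ : t.IsGE X₁ d := hRc.mono f₀ q δ hT hX hf₀
      have h01 : f₀ ≫ q = 0 := comp_distTriang_mor_zero₁₂ _ hT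
      have e1 := step_R (K := K) fd hT hPR
      have e2 := step_R (K := K) fd hT hQR
      have hlt : finrank K (P ⟶ X₁) + finrank K (Q ⟶ X₁) ≤ N := by
        rcases hPQ with rfl | rfl
        · have e3 := e1.2 f₀ hf₀ h01
          have e4 := e2.1
          omega
        · have e3 := e2.2 f₀ hf₀ h01
          have e4 := e1.1
          omega
      obtain ⟨Y, g, hY, hg⟩ := ih X₁ hX₁ hlt
      refine ⟨Y, q ≫ g, hY, rfl_comp t P Q d d (rfl_cone t P Q d d hT ?_) hg⟩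
      intro Z hZ f
      rcases hPQ with rfl | rfl
      · exact (hv_zero_iff (by omega)).1 hZ.2.1 f
      · exact (hv_zero_iff (by omega)).1 hZ.2.2 f

omit [HasZeroObject C] [HasShift C ℤ] [∀ n : ℤ, (shiftFunctor C n).Additive]
  [Pretriangulated C] in
/-- an element of an `End` of dimension one which is killed by a nonzero morphism is zero -/
lemma end_inj {P X : C} (h1 : finrank K (P ⟶ P) = 1) (g : P ⟶ X) (hg : g ≠ 0) (r : P ⟶ P)
    (hr : r ≫ g = 0) : r = 0 := by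
  have hid : (𝟙 P : P ⟶ P) ≠ 0 := by
    intro h
    apply hg
    rw [← Category.id_comp g, h, zero_comp]
  obtain ⟨c, hc⟩ := (finrank_eq_one_iff_of_nonzero' _ hid).1 h1 r
  rw [← hc, Linear.smul_comp, Category.id_comp] at hr
  rcases smul_eq_zero.1 hr with h2 | h2
  · rw [← hc, h2, zero_smul]
  · exact absurd h2 hg

section tilt

variable (t : TStructure C) (P Q : C) (d : ℤ)

/-- existence of the truncations -/
lemma exists_tri (fd : ∀ X Y : C, FiniteDimensional K (X ⟶ Y)) (hP : CoSmp t P d)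
    (hQ : CoSmp t Q d) (hPP1 : HV P P 1) (hPQ1 : HV P Q 1) (hQP1 : HV Q P 1)
    (hQQ1 : HV Q Q 1) (A : C) :
    ∃ (X Y : C) (_ : leP t P Q d 0 X) (_ : geP t P Q d 1 Y) (f : X ⟶ A) (g : A ⟶ Y)
      (h : Y ⟶ X⟦(1 : ℤ)⟧), Triangle.mk f g h ∈ distTriang C := by
  obtain ⟨n₀, hn₀⟩ : ∃ n₀ : ℤ, n₀ = 1 - d := ⟨_, rfl⟩
  obtain ⟨U, V, hU, hV, a, b, c, hT0⟩ := t.exists_triangle (A⟦n₀⟧) (d - 1) d (by omega)
  have hU' : t.IsLE U (d - 1) := ⟨hU⟩
  have hV' : t.IsGE V d := ⟨hV⟩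
  obtain ⟨Y, g, hY, hg⟩ := approx (K := K) fd t hP hQ hPP1 hPQ1 hQP1 hQQ1 _ V hV' le_rfl
  have hbg : Rfl t P Q d d (b ≫ g) := by
    refine rfl_comp t P Q d d (rfl_cone t P Q d d hT0 ?_) hg
    intro Z hZ f
    have h1 := hZ.1
    exact t.zero f (d - 1) d (by omega)
  obtain ⟨X, f, h, mem⟩ := distinguished_cocone_triangle₁ (b ≫ g)
  have hX : leP t P Q d (d - 1) X := by
    intro Z hZ k
    have e : d - 1 + 1 = d := by omega
    rw [e] at hZ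
    exact fibre_of_rfl t P Q d d mem hbg Z hZ k
  have hT' := tri_change _ (Triangle.shift_distinguished _ mem (-n₀)) (shiftShiftNeg A n₀)
  exact ⟨_, _, leP_shift t P Q d (d - 1) (-n₀) 0 (by omega) _ hX,
    geP_shift t P Q d d (-n₀) 1 (by omega) _ hY, _, _, _, hT'⟩

/-- the tilted t-structure -/
def tiltD (fd : ∀ X Y : C, FiniteDimensional K (X ⟶ Y)) (hP : CoSmp t P d)
    (hQ : CoSmp t Q d) (hPP1 : HV P P 1) (hPQ1 : HV P Q 1) (hQP1 : HV Q P 1)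
    (hQQ1 : HV Q Q 1) : TStructure C where
  le := leP t P Q d
  ge := geP t P Q d
  le_isClosedUnderIsomorphisms n := ⟨fun e h => leP_iso t P Q d n e h⟩
  ge_isClosedUnderIsomorphisms n := ⟨fun e h => geP_iso t P Q d n e h⟩
  le_shift n a n' h X hX := leP_shift t P Q d n a n' h X hX
  ge_shift n a n' h X hX := geP_shift t P Q d n a n' h X hX
  zero' X Y f hX hY := hX Y hY f
  le_zero_le X hX Y hY f := hX Y (geP_mono t hP.le hQ.le _ hY) f
  ge_one_le X hX := geP_mono t hP.le hQ.le 0 hX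
  exists_triangle_zero_one A := exists_tri t P Q d fd hP hQ hPP1 hPQ1 hQP1 hQQ1 A

end tilt

theorem tilt_down_co (fd : ∀ X Y : C, FiniteDimensional K (X ⟶ Y))
    (t : TStructure C) (P Q : C) (d : ℤ) (hP : CoSmp t P d) (hQ : CoSmp t Q d)
    (hPQ : HV P Q 0) (hQP : HV Q P 0) (hPP1 : HV P P 1) (hPQ1 : HV P Q 1) (hQP1 : HV Q P 1)
    (hQQ1 : HV Q Q 1) (hP1 : finrank K (P ⟶ P) = 1) (hQ1 : finrank K (Q ⟶ Q) = 1) :
    ∃ t' : TStructure C,
      (∀ X n, t'.IsGE X n ↔ t.IsGE X n ∧ HV P X (n - d) ∧ HV Q X (n - d)) ∧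
      CoSmp t' P (d - 1) ∧ CoSmp t' Q (d - 1) ∧
      ∀ T p, CoSmp t T p → (∀ m, HV P T m) → (∀ m, HV Q T m) → CoSmp t' T p := by
  obtain ⟨t', ht'⟩ : ∃ t' : TStructure C, t' = tiltD t P Q d fd hP hQ hPP1 hPQ1 hQP1 hQQ1 :=
    ⟨_, rfl⟩
  have hge : ∀ X n, t'.IsGE X n ↔ geP t P Q d n X := by
    intro X n
    rw [← t'.ge_iff_isGE, ht']
    rfl
  have hle : ∀ X n, t'.IsLE X n ↔ leP t P Q d n X := by
    intro X n
    rw [← t'.le_iff_isLE, ht']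
    rfl
  have hPle := hP.le
  have hQle := hQ.le
  have hPge := hP.ge
  have hQge := hQ.ge
  -- Hom in degree -1
  have neg1 : ∀ (R S : C), t.IsLE R d → t.IsGE S d → HV R S (d - 1 - d) := by
    intro R S hR hS f
    have h1 : t.IsGE (S⟦d - 1 - d⟧) (d + 1) := t.isGE_shift S d (d - 1 - d) (d + 1) (by omega)
    exact t.zero f d (d + 1) (by omega)
  -- the new simple objects
  have key : ∀ (R S : C), t.IsGE R d → (R = P ∧ S = Q ∨ R = Q ∧ S = P) →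
      finrank K (R ⟶ R) = 1 → HV S R 0 → ∀ {X Y : C} (g : R ⟶ X) (q : X ⟶ Y)
      (δ : Y ⟶ R⟦(1 : ℤ)⟧), Triangle.mk g q δ ∈ distTriang C → t.IsGE X (d - 1) →
      HV R X (d - 1 - d) → HV S X (d - 1 - d) → g ≠ 0 →
      t.IsGE Y (d - 1) ∧ HV R Y (d - 1 - d) ∧ HV S Y (d - 1 - d) := by
    intro R S hR _ hR1 hSR X Y g q δ hT hX hRX hSX hg
    refine ⟨?_, ?_, ?_⟩
    · have h1 : t.IsGE (R⟦(1 : ℤ)⟧) (d - 1) := t.isGE_shift R d 1 (d - 1) (by omega)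
      exact t.isGE₂ _ (rot_of_distTriang _ hT) (d - 1) hX h1
    · intro f
      have e : d - 1 - d = -1 := by omega
      revert f
      rw [e] at hRX ⊢
      intro f
      have hz : f ≫ δ⟦(-1 : ℤ)⟧' = 0 := by
        have h1 : δ ≫ g⟦(1 : ℤ)⟧' = 0 := comp_distTriang_mor_zero₃₁ _ hT
        obtain ⟨eR, eX, hnat⟩ := nat_shift g
        have h2 : (f ≫ δ⟦(-1 : ℤ)⟧' ≫ eR.hom) ≫ g = 0 := by
          rw [Category.assoc, Category.assoc, ← hnat, ← Category.assoc (δ⟦(-1 : ℤ)⟧'),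
            ← Functor.map_comp, h1, Functor.map_zero, zero_comp, comp_zero]
        have h4 := end_inj (K := K) hR1 g hg _ h2
        rw [← Category.assoc] at h4
        rw [← cancel_mono eR.hom, zero_comp]
        exact h4
      obtain ⟨k, hk⟩ := coyo₂ _ (rot_of_distTriang _ hT) (-1) f hz
      have h0 : k = 0 := hRX k
      rw [hk, h0]
      exact zero_comp
    · intro f
      have hz : f ≫ δ⟦(d - 1 - d : ℤ)⟧' = 0 :=
        (hSR.shift_right 1 (d - 1 - d) (by omega)) _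
      obtain ⟨k, hk⟩ := coyo₂ _ (rot_of_distTriang _ hT) (d - 1 - d) f hz
      have h0 : k = 0 := hSX k
      rw [hk, h0]
      exact zero_comp
  refine ⟨t', hge, ?_, ?_, ?_⟩
  · refine ⟨?_, ?_, ?_⟩
    · rw [hle]
      intro Y hY f
      exact (hv_zero_iff (by omega)).1 hY.2.1 f
    · rw [hge]
      exact ⟨t.isGE_of_ge P (d - 1) d (by omega), neg1 P P hPle hPge, neg1 Q P hQle hPge⟩
    · intro X Y g q δ hT hX hg
      rw [hge] at hX ⊢
      exact key P Q hPge (Or.inl ⟨rfl, rfl⟩) hP1 hQP g q δ hT hX.1 hX.2.1 hX.2.2 hg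
  · refine ⟨?_, ?_, ?_⟩
    · rw [hle]
      intro Y hY f
      exact (hv_zero_iff (by omega)).1 hY.2.2 f
    · rw [hge]
      exact ⟨t.isGE_of_ge Q (d - 1) d (by omega), neg1 P Q hPle hQge, neg1 Q Q hQle hQge⟩
    · intro X Y g q δ hT hX hg
      rw [hge] at hX ⊢
      obtain ⟨h1, h2, h3⟩ := key Q P hQge (Or.inr ⟨rfl, rfl⟩) hQ1 hPQ g q δ hT hX.1 hX.2.2
        hX.2.1 hg
      exact ⟨h1, h3, h2⟩
  · intro T p hT hPT hQT
    have hTle := hT.le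
    have hTge := hT.ge
    refine ⟨?_, ?_, ?_⟩
    · rw [hle]
      intro Y hY f
      have h1 := hY.1
      exact t.zero f p (p + 1) (by omega)
    · rw [hge]
      exact ⟨hTge, hPT _, hQT _⟩
    · intro X Y g q δ hTr hX hg
      rw [hge] at hX ⊢
      refine ⟨hT.mono g q δ hTr hX.1 hg, ?_, ?_⟩
      · intro f
        have hz : f ≫ δ⟦(p - d : ℤ)⟧' = 0 := ((hPT _).shift_right 1 (p - d) rfl) _
        obtain ⟨k, hk⟩ := coyo₂ _ (rot_of_distTriang _ hTr) (p - d) f hz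
        have h0 : k = 0 := hX.2.1 k
        rw [hk, h0]
        exact zero_comp
      · intro f
        have hz : f ≫ δ⟦(p - d : ℤ)⟧' = 0 := ((hQT _).shift_right 1 (p - d) rfl) _
        obtain ⟨k, hk⟩ := coyo₂ _ (rot_of_distTriang _ hTr) (p - d) f hz
        have h0 : k = 0 := hX.2.2 k
        rw [hk, h0]
        exact zero_comp

omit K [Field K] [Linear K C] in
lemma smp_toCo {t : TStructure C} {T : C} {p : ℤ} (h : Smp t T p) : CoSmp t T p := by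
  have hle := h.le
  refine ⟨h.le, h.ge, ?_⟩
  intro X Y g q δ hT hX hg
  rw [t.isGE_iff_orthogonal (p - 1) p (by omega)]
  intro Z f hZ
  -- the composite to `T[1]`
  obtain ⟨e, he⟩ : ∃ e : Z⟦(-1 : ℤ)⟧⟦(1 : ℤ)⟧ ≅ Z, True := ⟨shiftNegShift Z (1 : ℤ), trivial⟩
  obtain ⟨ψ, hψ⟩ := (shiftFunctor C (1 : ℤ)).map_surjective (e.hom ≫ f ≫ δ)
  have hZ' : t.IsLE (Z⟦(-1 : ℤ)⟧) p := t.isLE_shift Z (p - 1) (-1) p (by omega)
  have hψg : ψ ≫ g = 0 := by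
    apply (shiftFunctor C (1 : ℤ)).map_injective
    have h1 : δ ≫ g⟦(1 : ℤ)⟧' = 0 := comp_distTriang_mor_zero₃₁ _ hT
    rw [Functor.map_comp, hψ, Category.assoc, Category.assoc, h1, comp_zero, comp_zero,
      Functor.map_zero]
  have h0 : ψ = 0 := by
    by_contra hne
    obtain ⟨F, i, k, hF⟩ := distinguished_cocone_triangle₁ ψ
    have hFle : t.IsLE F p := h.epi i ψ k hF hZ' hne
    obtain ⟨r, hr⟩ := Triangle.yoneda_exact₃ _ hF g hψg
    have hF1 : t.IsLE (F⟦(1 : ℤ)⟧) (p - 1) := t.isLE_shift F p 1 (p - 1) (by omega)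
    have hr0 : r = 0 := t.zero_of_isLE_of_isGE r (p - 1) p (by omega) hF1 hX
    apply hg
    rw [hr, hr0]
    exact comp_zero
  have hfδ : f ≫ δ = 0 := by
    rw [h0, Functor.map_zero] at hψ
    rw [← cancel_epi e.hom, comp_zero, ← hψ]
  obtain ⟨f', hf'⟩ := Triangle.coyoneda_exact₃ _ hT f hfδ
  have hf0 : f' = 0 := t.zero_of_isLE_of_isGE f' (p - 1) p (by omega) hZ hX
  rw [hf', hf0]
  exact zero_comp

omit K [Field K] [Linear K C] in
lemma coSmp_toSmp {t : TStructure C} {T : C} {p : ℤ} (h : CoSmp t T p) : Smp t T p := by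
  refine ⟨h.le, h.ge, ?_⟩
  intro X F i f δ hT hX hf
  rw [t.isLE_iff_orthogonal p (p + 1) rfl]
  intro Z g hZ
  -- the composite from `T[-1]`
  obtain ⟨ψ, hψ⟩ : ∃ ψ : T ⟶ Z⟦(1 : ℤ)⟧, ψ = δ ≫ g⟦(1 : ℤ)⟧' := ⟨_, rfl⟩
  have hZ' : t.IsGE (Z⟦(1 : ℤ)⟧) p := t.isGE_shift Z (p + 1) 1 p (by omega)
  have hfψ : f ≫ ψ = 0 := by
    have h1 : f ≫ δ = 0 := comp_distTriang_mor_zero₂₃ _ hT
    rw [hψ, ← Category.assoc, h1, zero_comp]
  have h0 : ψ = 0 := by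
    by_contra hne
    obtain ⟨Q, q, k, hQ⟩ := distinguished_cocone_triangle ψ
    have hQge : t.IsGE Q p := h.mono ψ q k hQ hZ' hne
    obtain ⟨r, hr⟩ := Triangle.coyoneda_exact₂ _ (inv_rot_of_distTriang _ hQ) f hfψ
    have hQ1 : t.IsGE (Q⟦(-1 : ℤ)⟧) (p + 1) := t.isGE_shift Q p (-1) (p + 1) (by omega)
    have hr0 : r = 0 := t.zero_of_isLE_of_isGE r p (p + 1) (by omega) hX hQ1
    apply hf
    rw [hr, hr0]
    exact zero_comp
  have h1 : δ ≫ g⟦(1 : ℤ)⟧' = 0 := by rw [← hψ, h0]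
  obtain ⟨k, hk⟩ : ∃ k : X⟦(1 : ℤ)⟧ ⟶ Z⟦(1 : ℤ)⟧, g⟦(1 : ℤ)⟧' = (-i⟦(1 : ℤ)⟧') ≫ k :=
    Triangle.yoneda_exact₃ _ (rot_of_distTriang _ hT) (g⟦(1 : ℤ)⟧') h1
  obtain ⟨k', rfl⟩ := (shiftFunctor C (1 : ℤ)).map_surjective k
  have hk0 : k' = 0 := t.zero_of_isLE_of_isGE k' p (p + 1) (by omega) hX hZ
  apply (shiftFunctor C (1 : ℤ)).map_injective
  rw [hk, hk0, Functor.map_zero, Functor.map_zero, comp_zero]

/-- M2': tilt at two simple objects, downwards. -/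
theorem tilt_down [IsTriangulated C] (fd : ∀ X Y : C, FiniteDimensional K (X ⟶ Y))
    (t : TStructure C) (P Q : C) (d : ℤ) (hP : Smp t P d) (hQ : Smp t Q d)
    (hPQ : HV P Q 0) (hQP : HV Q P 0) (hPP1 : HV P P 1) (hPQ1 : HV P Q 1) (hQP1 : HV Q P 1)
    (hQQ1 : HV Q Q 1) (hP1 : finrank K (P ⟶ P) = 1) (hQ1 : finrank K (Q ⟶ Q) = 1) :
    ∃ t' : TStructure C,
      (∀ X n, t'.IsGE X n ↔ t.IsGE X n ∧ HV P X (n - d) ∧ HV Q X (n - d)) ∧
      CoSmp t' P (d - 1) ∧ CoSmp t' Q (d - 1) ∧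
      ∀ T p, CoSmp t T p → (∀ m, HV P T m) → (∀ m, HV Q T m) → CoSmp t' T p :=
  tilt_down_co (K := K) fd t P Q d (smp_toCo hP) (smp_toCo hQ) hPQ hQP hPP1 hPQ1 hQP1 hQQ1 hP1 hQ1

end Pool.Agent.Helper25.KU
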